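import Pool.Agent.Helper83.SU.St

/-!
Project SU (MP_f663dd_lc), module SG: singular cardinals.
-/

set_option autoImplicit false

namespace Pool.Agent.Helper73.SU
open Pool.Agent.Helper83.SU Pool.Agent.Helper83.CK Cardinal Set
universe u

theorem exS (l : Cardinal.{u}) (hl0 : ℵ₀ ≤ l) (hl : ¬ l.IsRegular) :
    ∃ S : Set l.ord.ToType, (∀ a, ∃ s ∈ S, a < s) ∧ #S < l := by
  haveI := Cardinal.noMaxOrder hl0
  obtain ⟨S, hS, hSc⟩ := Order.exists_cof_eq l.ord.ToType
  refine ⟨S, fun a => ?_, ?_⟩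
  · obtain ⟨a', ha'⟩ := exists_gt a
    obtain ⟨s, hs, hle⟩ := hS a'
    exact ⟨s, hs, lt_of_lt_of_le ha' hle⟩
  · rw [hSc, Ordinal.cof_toType]
    by_contra hcon
    exact hl ⟨hl0, not_lt.mp hcon⟩

theorem mSG : StNR.{u} → StRN.{u} → StMG.{u} → StPA.{u} → StSG.{u} := by
  intro hNR hRN hMG hPA k l hk hkl hl hlt
  have hk0 : ℵ₀ ≤ k := hk.aleph0_le
  have hl0 : ℵ₀ ≤ l := hk0.trans hkl.le
  have hα : #l.ord.ToType = l := mk_ord_toType l
  obtain ⟨K, hK⟩ : ∃ K : Set l.ord.ToType, #K = k :=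
    le_mk_iff_exists_set.mp (by rw [hα]; exact hkl.le)
  obtain ⟨S, hS, hSl⟩ := exS l hl0 hl
  have hLk : k ≤ #(K ∪ S : Set l.ord.ToType) := by
    rw [← hK]
    exact mk_le_mk_of_subset subset_union_left
  have hLl : #(K ∪ S : Set l.ord.ToType) < l :=
    lt_of_le_of_lt (mk_union_le K S) (add_lt_of_lt hl0 (by rw [hK]; exact hkl) hSl)
  obtain ⟨g2, hg2⟩ := hNR l.ord.ToType k K (K ∪ S) hk0 subset_union_left hK (hlt _ hLk hLl)
  obtain ⟨g1, hg1⟩ := hPA k l K hk0 hkl hK hlt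
  choose s hsS hs using hS
  obtain ⟨g, hg⟩ := hMG l.ord.ToType (fun n => if n = 0 then g1 else if n = 1 then g2 else
    fun _ x => s (x 0))
  have hSm : Sm k K (univ : Set l.ord.ToType) := by
    refine ⟨g, fun A hA hAK => ?_⟩
    have hA' := (hg A).mp hA
    have h1 : Cl g1 A := by
      have := hA' 0
      simpa using this
    have h2 : Cl g2 A := by
      have := hA' 1
      simpa using this
    have h3 : ∀ a ∈ A, s a ∈ A := by
      intro a ha
      have h4 := hA' 2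
      have h5 := h4 (fun _ => true) (fun _ => a) (fun _ => ha)
      simpa using h5
    have h6 := hg2 A h2 hAK
    have h7 : #(A ∩ S : Set l.ord.ToType) < k :=
      lt_of_le_of_lt (mk_le_mk_of_subset (inter_subset_inter_right A subset_union_right)) h6
    have h8 := hg1 A h1 hAK
    have h9 : A ∩ univ ⊆ ⋃ m ∈ A ∩ S, A ∩ Iio m := by
      rintro a ⟨ha, -⟩
      rw [mem_iUnion₂]
      exact ⟨s a, ⟨h3 a ha, hsS a⟩, ha, hs a⟩
    refine lt_of_le_of_lt (mk_le_mk_of_subset h9) ?_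
    rw [card_biUnion_lt_iff_forall_of_isRegular hk h7]
    intro m hm
    exact h8 m hm.1
  have h10 := hRN l.ord.ToType k K hk0 hK hSm
  rw [hα] at h10
  exact h10

end Pool.Agent.Helper73.SU
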